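import Pool.Agent.CSV.BlockLim

set_option autoImplicit false

/-!
# Sentences with a free first block and tree-like rest converge in the symmetric groups

The formulas are given by `Pool.Agent.CSV.BlockTree` (`Pool/Agent/CSV/BlockDefs.lean`).  A formula
with free variables `x 0, ..., x (k - 1)` is given by its values `φ n x`, `x : Fin k → S_n`, where
`S_n` carries the normalised Hamming length.  Words in the variables `x 0, ..., x (b - 1)` of the
first block are arbitrary; every later variable occurs in words only with its parent, one earlier
variable or itself; any number of later variables may be quantified, in any order of `sup` and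
`inf`.
-/

open Filter Topology

namespace Pool.Agent.Results.MP_34c6af_lc.FreeFirstBlock

/-- **Free first block, tree-like rest.** For every such formula `φ` with free variables
`x 0, ..., x (b - 1)`, the values in `S_n` of the sentences `inf_x φ` and `sup_x φ` converge as
`n → ∞`, and `φ` itself is asymptotically a continuous function `F` of the lengths of the words in
its free variables: `φ n x` differs from the value of `F` at `x` by at most `ε`, for all `x` and all
large `n`. -/
theorem result (b : ℕ) (p : Fin b → Fin b) (φ : (n : ℕ) → (Fin b → Equiv.Perm (Fin n)) → ℝ)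
    (hφ : Pool.Agent.CSV.BlockTree b b p φ) :
    (∃ L : ℝ, Tendsto (fun n : ℕ => ⨅ x : Fin b → Equiv.Perm (Fin n), φ n x) atTop (𝓝 L)) ∧
    (∃ L : ℝ, Tendsto (fun n : ℕ => ⨆ x : Fin b → Equiv.Perm (Fin n), φ n x) atTop (𝓝 L)) ∧
    ∃ F : (FreeGroup (Fin b) → ℝ) → ℝ, Continuous F ∧
      ∀ ε : ℝ, 0 < ε → ∃ N : ℕ, ∀ n, N ≤ n → ∀ x : Fin b → Equiv.Perm (Fin n),
        |φ n x - F (fun w => (((FreeGroup.lift x) w).support.card : ℝ) / (n : ℝ))| ≤ ε :=
  Pool.Agent.CSV.block_final p φ hφ

end Pool.Agent.Results.MP_34c6af_lc.FreeFirstBlock
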