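import Pool.Agent.CSV.SlowFin

set_option autoImplicit false

/-!
# Sentence values in the symmetric groups vary slowly

The formulas of continuous logic for invariant length groups, read in all the symmetric groups
`S_n` with normalised Hamming length, are given by `Pool.Agent.CSV.IsFormula`
(`Pool/Agent/CSV/Defs.lean`); `IsFormula 0 φ` says that `φ` is a sentence.
-/

namespace Pool.Agent.Results.MP_34c6af_lc.SlowVariation

/-- **Slow variation.** For every sentence `φ` of continuous logic for invariant length groups and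
every `ε > 0` there is `δ > 0` such that the values of `φ` in `S_n` and `S_m` differ by at most `ε`
whenever `1 ≤ n ≤ m ≤ (1 + δ) n`. -/
theorem result (φ : (n : ℕ) → (Fin 0 → Equiv.Perm (Fin n)) → ℝ)
    (hφ : Pool.Agent.CSV.IsFormula 0 φ) (ε : ℝ) (hε : 0 < ε) :
    ∃ δ : ℝ, 0 < δ ∧ ∀ n m : ℕ, 1 ≤ n → n ≤ m → (m : ℝ) ≤ (1 + δ) * n →
      |φ n Fin.elim0 - φ m Fin.elim0| ≤ ε :=
  Pool.Agent.CSV.slow_sentence φ hφ ε hε

end Pool.Agent.Results.MP_34c6af_lc.SlowVariation
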